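import Mathlib
import Pool.Agent.TH131.GHC.RDefs

/-!
# The cohomology of `A ^ m × Z` for two embeddings of the field of definition

`A` is an abelian variety and `Z` a smooth projective variety over a field `k`; `ρ` is an embedding of
`k` in the field of complex numbers. The homology `H_1(ρ A)` and the cohomology `H(ρ Z)` are given in
rational bases.
-/

set_option autoImplicit false

namespace Pool.Agent.K6.H94.DL

open Matrix Pool.Agent.TH131.GHC

noncomputable section

variable {B : Type} [Fintype B] [DecidableEq B] {v : ℕ}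

/-- The matrix `M` on each of `m` copies. -/
def pw (m : ℕ) {B R : Type} [Zero R] (M : Matrix B B R) : Matrix (Fin m × B) (Fin m × B) R :=
  Matrix.of fun p q => if p.1 = q.1 then M p.2 q.2 else 0

/-- The Hodge structures of `ρ A` and `ρ Z` for an embedding `ρ`. -/
structure Emb (B : Type) [Fintype B] [DecidableEq B] (v : ℕ) where
  /-- the Hodge operator on the complex homology `H_1(ρ A, ℂ)`, in a rational basis: it is `1` on the
  tangent space `H^(-1, 0)` and `-1` on its conjugate -/
  D : Matrix B B ℂ
  /-- the cohomology of `ρ Z` -/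
  V : Coh v

/-- The Hodge structures of `ρ (A ^ m)` and `ρ Z`. -/
def Emb.pow (X : Emb B v) (m : ℕ) : Emb (Fin m × B) v where
  D := pw m X.D
  V := X.V

/-- The families of coefficients in `R`: for a class `γ` of `A × Z` its component in
`H^k(A) ⊗ H(Z)` is a form `γ k` on `H_1(A)` in `k` variables with values in `H(Z)`, given by its values
on the vectors of the basis. -/
abbrev Cls (B : Type) (v : ℕ) (R : Type) : Type := ∀ k : ℕ, (Fin k → B) → Fin v → R

/-- The class belongs to the cohomology of degree `d` of `A × Z`: the forms are alternating, and the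
degrees of the values are complementary. -/
def IsClass (V : Coh v) (d : ℕ) {R : Type} [Ring R] (γ : Cls B v R) : Prop :=
  (∀ k J c, γ k J c ≠ 0 → k + V.dg c = d) ∧
    ∀ (k : ℕ) (π : Equiv.Perm (Fin k)) (J : Fin k → B) (c : Fin v),
      γ k (fun l => J (π l)) c = ((Equiv.Perm.sign π : ℤ) : R) * γ k J c

/-- The rational class `β` is a Hodge class in `H^(2 i)(A × Z)`: it is killed by the Hodge operator,
which is multiplication by `p - q` on the classes of type `(p, q)`. -/
def Emb.IsHodge (X : Emb B v) (i : ℕ) (β : Cls B v ℚ) : Prop :=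
  IsClass X.V (2 * i) β ∧ ∀ (k : ℕ) (J : Fin k → B) (c : Fin v),
    ∑ l, ∑ j, X.D j (J l) * (β k (Function.update J l j) c : ℂ) +
      ∑ c', X.V.z c c' * (β k J c' : ℂ) = 0

/-- Let `P : H_1(A) ⊗ K → H_1(ρ A) ⊗ K` and `F : H(ρ Z) ⊗ K → H(Z) ⊗ K` be the comparison
isomorphisms, and `u` the one of the Tate twists. The class `γ` in `H^(2 i)(A × Z) ⊗ K (i)` becomes a
Hodge class: it corresponds to a rational class `β` of `ρ A × ρ Z` which is a Hodge class. -/
def Emb.Becomes (X : Emb B v) {K : Type} [Field K] (P : Matrix B B K)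
    (F : Matrix (Fin v) (Fin v) K) (u : K) (i : ℕ) (γ : Cls B v K) : Prop :=
  ∃ β : Cls B v ℚ, X.IsHodge i β ∧ ∀ (k : ℕ) (J : Fin k → B) (c : Fin v),
    u ^ i * γ k J c =
      ∑ c', F c c' * ∑ J' : Fin k → B, (β k J' c' : K) * ∏ l, P (J' l) (J l)

/-- The comparison isomorphisms between the homology and cohomology groups for two embeddings
`ρ`, `ρ'`, with coefficients in `K`. -/
structure Comparison (X X' : Emb B v) (K : Type) [Field K] [CharZero K] where
  /-- the isomorphism from `H_1(ρ A)` to `H_1(ρ' A)` -/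
  P : Matrix B B K
  /-- the isomorphism from `H(ρ' Z)` to `H(ρ Z)` -/
  F : Matrix (Fin v) (Fin v) K
  /-- the isomorphism from `ℚ(-1)` to `ℚ(-1)` -/
  u : K
  isoP : IsUnit P
  isoF : IsUnit F
  isoU : u ≠ 0
  /-- the bases of `H(ρ Z)` and `H(ρ' Z)` have the same degrees -/
  deg : X'.V.dg = X.V.dg
  graded : ∀ c c', X.V.dg c ≠ X.V.dg c' → F c c' = 0
  /-- the theorem of Lefschetz for divisors on `A × A`: a bilinear form `β` on `H_1(ρ A)` of type
  `(1, 1)` is the class of an algebraic correspondence, so it corresponds to such a form on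
  `H_1(ρ' A)` -/
  lefschetz : ∀ β : Matrix B B ℚ,
    X.D.transpose * β.map (fun x : ℚ => (x : ℂ)) + β.map (fun x : ℚ => (x : ℂ)) * X.D = 0 →
    ∃ β' : Matrix B B ℚ,
      X'.D.transpose * β'.map (fun x : ℚ => (x : ℂ)) + β'.map (fun x : ℚ => (x : ℂ)) * X'.D = 0 ∧
      P.transpose * β'.map (fun x : ℚ => (x : K)) * P = u • β.map (fun x : ℚ => (x : K))

/-- Deligne's conjecture for `A ^ m × Z` and the two embeddings, with coefficients in `K`: all
classes which become Hodge classes under `ρ` become Hodge classes under `ρ'`. (The classes are given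
in the coordinates of the embedding `ρ`.) -/
def Deligne {X X' : Emb B v} {K : Type} [Field K] [CharZero K] (Q : Comparison X X' K) (m : ℕ) :
    Prop :=
  ∀ (i : ℕ) (γ : Cls (Fin m × B) v K), (X.pow m).Becomes 1 1 1 i γ →
    (X'.pow m).Becomes (pw m Q.P) Q.F Q.u i γ

end

end Pool.Agent.K6.H94.DL
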