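import Mathlib
import Pool.Agent.TH131.GHC.Rel5

/-!
# Sub-Hodge structures, for the total Hodge operator, of the tensors with values in a Hodge structure
of bounded level
-/

set_option linter.unusedSectionVars false

namespace Pool.Agent.K6.H94.DL

open Matrix Equiv Pool.Agent.H204R3.SP Pool.Agent.W437.HC Pool.Agent.W437.HD Pool.Agent.W437.HP
  Pool.Agent.TH131.GHC

noncomputable section

section defs

variable {B : Type*} [Fintype B] [DecidableEq B] {C : Type*} [Fintype C] [DecidableEq C]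
  {κ : Type*} [Fintype κ] [DecidableEq κ] {κ' : Type*} [Fintype κ'] [DecidableEq κ']
  {D : Matrix B B ℂ} {D' : Matrix C C ℂ}

/-- The eigenspace of the total Hodge operator. -/
def eigT (κ : Type*) [Fintype κ] [DecidableEq κ] (D : Matrix B B ℂ) (D' : Matrix C C ℂ)
    (n : ℤ) : Submodule ℂ ((κ → B) × C → ℂ) where
  carrier := {z | opD κ C D z + opW κ B D' z = (n : ℂ) • z}
  zero_mem' := by
    change opD κ C D 0 + opW κ B D' 0 = _
    rw [map_zero, map_zero, smul_zero, add_zero]
  add_mem' := by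
    intro x y hx hy
    change opD κ C D (x + y) + opW κ B D' (x + y) = _
    have h1 : opD κ C D x + opW κ B D' x = (n : ℂ) • x := hx
    have h2 : opD κ C D y + opW κ B D' y = (n : ℂ) • y := hy
    rw [map_add, map_add, smul_add, ← h1, ← h2]
    abel
  smul_mem' := by
    intro r x hx
    change opD κ C D (r • x) + opW κ B D' (r • x) = _
    have h1 : opD κ C D x + opW κ B D' x = (n : ℂ) • x := hx
    rw [map_smul, map_smul, ← smul_add, h1, smul_comm]

theorem mem_eigT {n : ℤ} {z : (κ → B) × C → ℂ} :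
    z ∈ eigT κ D D' n ↔ opD κ C D z + opW κ B D' z = (n : ℂ) • z := Iff.rfl

/-- A sub-Hodge structure of level at most `L`. -/
def HT (D : Matrix B B ℂ) (D' : Matrix C C ℂ) (L : ℤ)
    (V : Submodule ℚ ((κ → B) × C → ℚ)) : Prop :=
  ∀ t ∈ V, cstX t ∈ ⨆ n : {n : ℤ // |n| ≤ L}, cxX V ⊓ eigT κ D D' n.1

variable {L : ℤ}

theorem HT_cx {V : Submodule ℚ ((κ → B) × C → ℚ)} (h : HT D D' L V) :
    cxX V ≤ ⨆ n : {n : ℤ // |n| ≤ L}, cxX V ⊓ eigT κ D D' n.1 :=
  cxX_le h

theorem HT_ind {V : Submodule ℚ ((κ → B) × C → ℚ)} (h : HT D D' L V)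
    {P : Submodule ℂ ((κ → B) × C → ℂ)}
    (hP : ∀ n : ℤ, |n| ≤ L → ∀ z ∈ cxX V, z ∈ eigT κ D D' n → z ∈ P) : cxX V ≤ P := by
  refine (HT_cx h).trans (iSup_le ?_)
  rintro ⟨n, hn⟩ z hz
  exact hP n hn z hz.1 hz.2

theorem HT_sSup {S : Set (Submodule ℚ ((κ → B) × C → ℚ))} (hS : ∀ V ∈ S, HT D D' L V) :
    HT D D' L (sSup S) := by
  intro c hc
  rw [sSup_eq_iSup'] at hc
  induction hc using Submodule.iSup_induction' with
  | mem V x hx =>
    refine SetLike.le_def.1 (iSup_mono fun a => ?_) (hS V.1 V.2 x hx)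
    exact inf_le_inf_right _ (cxX_mono (le_sSup V.2))
  | zero =>
    rw [cstX_zero]
    exact Submodule.zero_mem _
  | add x y _ _ hx hy =>
    rw [cstX_add]
    exact Submodule.add_mem _ hx hy

theorem HT_map {f : ((κ → B) → ℚ) →ₗ[ℚ] ((κ' → B) → ℚ)} (hf : IsHM D f)
    {V : Submodule ℚ ((κ → B) × C → ℚ)} (hV : HT D D' L V) :
    HT D D' L (V.map (fW C f)) := by
  obtain ⟨fC, h1, h2⟩ := hf
  rintro _ ⟨v, hv, rfl⟩
  rw [← fW_cstX h1]
  have h3 := Submodule.mem_map_of_mem (f := fW C fC) (hV v hv)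
  rw [Submodule.map_iSup] at h3
  refine SetLike.le_def.1 (iSup_mono fun p => ?_) h3
  rintro _ ⟨x, hx, rfl⟩
  refine ⟨?_, ?_⟩
  · have h4 : cxX V ≤ (cxX (V.map (fW C f))).comap (fW C fC) := by
      refine cxX_le fun t ht => ?_
      rw [Submodule.mem_comap, fW_cstX h1]
      exact cstX_mem (Submodule.mem_map_of_mem ht)
    exact h4 hx.1
  · have h5 : opD κ' C D (fW C fC x) = fW C fC (opD κ C D x) := by
      refine ext_sl fun c => ?_
      rw [sl_opD, sl_fW, sl_fW, sl_opD, h2]
    have h6 : opD κ C D x + opW κ B D' x = (p.1 : ℂ) • x := hx.2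
    change opD κ' C D (fW C fC x) + opW κ' B D' (fW C fC x) = _
    rw [h5, ← fW_opW, ← map_add, h6, map_smul]

/-- The eigenvalues of the Hodge operator of the values are bounded by `w`. -/
def Bdd (D' : Matrix C C ℂ) (w : ℤ) : Prop :=
  ∀ x : C → ℂ, x ∈ Submodule.span ℂ {y | ∃ k : ℤ, |k| ≤ w ∧ D' *ᵥ y = (k : ℂ) • y}

theorem Bdd.dec {w : ℤ} (h : Bdd D' w) (x : C → ℂ) :
    x ∈ Submodule.span ℂ {y | ∃ k : ℤ, D' *ᵥ y = (k : ℂ) • y} := by
  refine Submodule.span_mono ?_ (h x)
  rintro y ⟨k, -, hk⟩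
  exact ⟨k, hk⟩

/-- The projections to the eigenspaces of the values. -/
theorem exists_projs {w : ℤ} (h : Bdd D' w) : ∃ Pb : ℤ → Matrix C C ℂ,
    (∀ b, D' * Pb b = (b : ℂ) • Pb b) ∧ (∀ b, Pb b * D' = (b : ℂ) • Pb b) ∧
      ∑ b ∈ Finset.Icc (-w) w, Pb b = 1 := by
  choose Pb h1 h2 using fun b => exists_projE h.dec b
  have hext : ∀ {M N : Matrix C C ℂ}, (∀ y, M *ᵥ y = N *ᵥ y) → M = N := by
    intro M N hMN
    exact Matrix.toLin'.injective (LinearMap.ext fun y => by
      rw [Matrix.toLin'_apply, Matrix.toLin'_apply, hMN])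
  refine ⟨Pb, fun b => hext fun y => ?_, fun b => hext fun y => ?_, hext fun y => ?_⟩
  · rw [← mulVec_mulVec, h2, smul_mulVec]
  · have h3 := h.dec y
    induction h3 using Submodule.span_induction with
    | mem y hy =>
      obtain ⟨k, hk⟩ := hy
      rw [← mulVec_mulVec, hk, mulVec_smul, smul_mulVec, h1 b k y hk]
      by_cases h3 : k = b
      · rw [h3]
      · rw [if_neg h3, smul_zero, smul_zero]
    | zero => simp
    | add x y _ _ hx hy => rw [mulVec_add, mulVec_add, hx, hy]
    | smul r x _ hx => rw [mulVec_smul, mulVec_smul, hx]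
  · rw [one_mulVec, sum_mulVec]
    have h3 := h y
    induction h3 using Submodule.span_induction with
    | mem y hy =>
      obtain ⟨k, hk, hky⟩ := hy
      rw [Finset.sum_eq_single k]
      · rw [h1 k k y hky, if_pos rfl]
      · intro b _ hb
        rw [h1 b k y hky, if_neg (Ne.symm hb)]
      · intro h4
        exact absurd (Finset.mem_Icc.2 (abs_le.1 hk)) h4
    | zero => simp
    | add x y _ _ hx hy =>
      simp only [mulVec_add, Finset.sum_add_distrib]
      rw [hx, hy]
    | smul r x _ hx =>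
      simp only [mulVec_smul, ← Finset.smul_sum]
      rw [hx]

theorem opW_mul {K : Type*} [Field K] (M N : Matrix C C K) (t : (κ → B) × C → K) :
    opW κ B M (opW κ B N t) = opW κ B (M * N) t := by
  funext p
  simp only [opW_apply, Matrix.mul_apply, Finset.mul_sum, Finset.sum_mul]
  rw [Finset.sum_comm]
  exact Finset.sum_congr rfl fun _ _ => Finset.sum_congr rfl fun _ _ => by ring

theorem opW_smulM {K : Type*} [Field K] (r : K) (M : Matrix C C K) (t : (κ → B) × C → K) :
    opW κ B (r • M) t = r • opW κ B M t := by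
  funext p
  simp only [opW_apply, Matrix.smul_apply, smul_eq_mul, Pi.smul_apply, Finset.mul_sum, mul_assoc]

theorem opW_sumM {K : Type*} [Field K] {ι : Type*} (s : Finset ι) (M : ι → Matrix C C K)
    (t : (κ → B) × C → K) : opW κ B (∑ i ∈ s, M i) t = ∑ i ∈ s, opW κ B (M i) t := by
  funext p
  simp only [opW_apply, Finset.sum_apply, Matrix.sum_apply, Finset.sum_mul]
  rw [Finset.sum_comm]

theorem opW_one {K : Type*} [Field K] (t : (κ → B) × C → K) :
    opW κ B (1 : Matrix C C K) t = t := by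
  funext p
  rw [opW_apply, Finset.sum_eq_single p.2]
  · rw [Matrix.one_apply_eq, one_mul]
  · intro c _ hc
    rw [Matrix.one_apply_ne (Ne.symm hc), zero_mul]
  · intro h
    exact absurd (Finset.mem_univ _) h

/-- The span of the components. -/
def slices (V : Submodule ℚ ((κ → B) × C → ℚ)) : Submodule ℚ ((κ → B) → ℚ) :=
  Submodule.span ℚ {x | ∃ t ∈ V, ∃ c, x = sl c t}

theorem sl_mem_slices {V : Submodule ℚ ((κ → B) × C → ℚ)} {t : (κ → B) × C → ℚ} (ht : t ∈ V)
    (c : C) : sl c t ∈ slices V := Submodule.subset_span ⟨t, ht, c, rfl⟩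

theorem sl_cx {V : Submodule ℚ ((κ → B) × C → ℚ)} {z : (κ → B) × C → ℂ} (hz : z ∈ cxX V)
    (c : C) : sl c z ∈ cx (slices V) := by
  have h1 : cxX V ≤ (cx (slices V)).comap (sl c) := by
    refine cxX_le fun t ht => ?_
    rw [Submodule.mem_comap]
    exact cst_mem_cx (sl_mem_slices ht c)
  exact h1 hz

/-- The components of a sub-Hodge structure of level at most `L` with values in a Hodge structure
of level at most `w` generate a Hodge structure of level at most `L + w`. -/
theorem HL_slices {w : ℤ} (hw : Bdd D' w) {V : Submodule ℚ ((κ → B) × C → ℚ)}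
    (hV : HT D D' L V) : HL D (L + w) (slices V) := by
  obtain ⟨Pb, hP1, hP2, hP3⟩ := exists_projs hw
  have key : ∀ c : C, cxX V ≤ (⨆ a : {a : ℤ // |a| ≤ L + w},
      cx (slices V) ⊓ eigF D κ a.1).comap (sl c) := by
    intro c
    refine HT_ind hV fun n hn z hz hzn => ?_
    rw [Submodule.mem_comap]
    rw [mem_eigT] at hzn
    have h1 : z = ∑ b ∈ Finset.Icc (-w) w, opW κ B (Pb b) z := by
      rw [← opW_sumM, hP3, opW_one]
    have h2 : sl c z = ∑ b ∈ Finset.Icc (-w) w, sl c (opW κ B (Pb b) z) := by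
      conv_lhs => rw [h1]
      rw [map_sum]
    rw [h2]
    refine Submodule.sum_mem _ fun b hb => ?_
    have hb' : |b| ≤ w := abs_le.2 (Finset.mem_Icc.1 hb)
    refine Submodule.mem_iSup_of_mem (⟨n - b, ?_⟩ : {a : ℤ // |a| ≤ L + w}) ⟨?_, ?_⟩
    · have := abs_sub n b
      omega
    · rw [sl_opW]
      exact Submodule.sum_mem _ fun c' _ => Submodule.smul_mem _ _ (sl_cx hz c')
    · change act D (sl c (opW κ B (Pb b) z)) = ((n - b : ℤ) : ℂ) • sl c (opW κ B (Pb b) z)
      rw [← sl_opD]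
      have h3 : opD κ C D (opW κ B (Pb b) z) = opW κ B (Pb b) (opD κ C D z) := fW_opW _ _ _
      have h4 : opD κ C D z = (n : ℂ) • z - opW κ B D' z := by
        rw [← hzn, add_sub_cancel_right]
      rw [h3, h4, map_sub, map_smul, opW_mul, hP2, opW_smulM, ← sub_smul, map_smul]
      push_cast
      rfl
  intro x hx
  unfold slices at hx
  induction hx using Submodule.span_induction with
  | mem x hx =>
    obtain ⟨t, ht, c, rfl⟩ := hx
    exact key c (cstX_mem ht)
  | zero =>
    rw [cst_zero]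
    exact Submodule.zero_mem _
  | add x y _ _ hx hy =>
    rw [cst_add]
    exact Submodule.add_mem _ hx hy
  | smul r x _ hx =>
    have h1 : cst ℂ (r • x) = (r : ℂ) • cst ℂ x := by
      funext I
      simp [cst]
    rw [h1]
    exact Submodule.smul_mem _ _ hx

theorem isHM_reindex (D : Matrix B B ℂ) (e : κ ≃ κ') :
    IsHM D ({ toFun := fun c I => c (fun k => I (e.symm k))
              map_add' := fun _ _ => rfl
              map_smul' := fun _ _ => rfl } : ((κ' → B) → ℚ) →ₗ[ℚ] ((κ → B) → ℚ)) := by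
  refine ⟨{ toFun := fun c I => c (fun k => I (e.symm k))
            map_add' := fun _ _ => rfl
            map_smul' := fun _ _ => rfl }, fun c => rfl, fun c => ?_⟩
  exact act_reindex e D c

end defs

end

end Pool.Agent.K6.H94.DL
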