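import Mathlib
import Pool.Agent.K6.H94.DL.Tot

/-!
# Sub-Hodge structures of the tensors with values in a Hodge structure of bounded level are generated
by those with few variables
-/

set_option linter.unusedSectionVars false

namespace Pool.Agent.K6.H94.DL

open Matrix Equiv Pool.Agent.H204R3.SP Pool.Agent.W437.HC Pool.Agent.W437.HD Pool.Agent.W437.HP
  Pool.Agent.TH131.GHC

noncomputable section

theorem ext_equiv {κ : Type*} [Fintype κ] [DecidableEq κ] {a b : κ} (hab : a ≠ b) {r m : ℕ}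
    (e : (Fin r × Fin 2) ⊕ Fin m ≃ {l // l ≠ a ∧ l ≠ b}) :
    ∃ e' : (Fin (r + 1) × Fin 2) ⊕ Fin m ≃ κ, e' (Sum.inl (0, 0)) = a ∧
      e' (Sum.inl (0, 1)) = b ∧ (∀ i ε, e' (Sum.inl (i.succ, ε)) = (e (Sum.inl (i, ε))).1) ∧
      ∀ l, e' (Sum.inr l) = (e (Sum.inr l)).1 := by
  let f : (Fin (r + 1) × Fin 2) ⊕ Fin m → κ :=
    Sum.elim (fun p => Fin.cases (motive := fun _ => κ) (if p.2 = 0 then a else b)
      (fun i => (e (Sum.inl (i, p.2))).1) p.1) (fun l => (e (Sum.inr l)).1)
  have hsurj : Function.Surjective f := by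
    intro x
    by_cases hxa : x = a
    · exact ⟨Sum.inl (0, 0), by rw [hxa]; rfl⟩
    by_cases hxb : x = b
    · exact ⟨Sum.inl (0, 1), by rw [hxb]; rfl⟩
    obtain ⟨y, hy⟩ := e.surjective ⟨x, hxa, hxb⟩
    rcases y with ⟨i, ε⟩ | l
    · exact ⟨Sum.inl (i.succ, ε), congrArg Subtype.val hy⟩
    · exact ⟨Sum.inr l, congrArg Subtype.val hy⟩
  have hcard : Fintype.card ((Fin (r + 1) × Fin 2) ⊕ Fin m) = Fintype.card κ := by
    have h1 := card_two hab
    have h2 := Fintype.card_congr e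
    rw [Fintype.card_sum, Fintype.card_prod, Fintype.card_fin, Fintype.card_fin,
      Fintype.card_fin] at h2 ⊢
    omega
  refine ⟨Equiv.ofBijective f ((Fintype.bijective_iff_surjective_and_card f).2 ⟨hsurj, hcard⟩),
    rfl, rfl, fun i ε => rfl, fun l => rfl⟩

variable {B : Type*} [Fintype B] [DecidableEq B] {C : Type*} [Fintype C] [DecidableEq C]
  {D : Matrix B B ℂ} {D' : Matrix C C ℂ} {L N : ℤ}

/-- The span of the products of invariant bilinear forms and of elements of sub-Hodge structures of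
level at most `L` in at most `N` variables. -/
def GT (D : Matrix B B ℂ) (D' : Matrix C C ℂ) (L N : ℤ) (κ : Type) [Fintype κ]
    [DecidableEq κ] : Submodule ℚ ((κ → B) × C → ℚ) :=
  Submodule.span ℚ {t | ∃ (r a : ℕ) (e : (Fin r × Fin 2) ⊕ Fin a ≃ κ)
    (β : Fin r → Matrix B B ℚ) (V : Submodule ℚ ((Fin a → B) × C → ℚ))
    (s : (Fin a → B) × C → ℚ), (a : ℤ) ≤ N ∧ (∀ i, IsH D (bilc (β i))) ∧ HT D D' L V ∧
    s ∈ V ∧ t = fun p => (∏ i, β i (p.1 (e (Sum.inl (i, 0)))) (p.1 (e (Sum.inl (i, 1))))) *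
      s (fun l => p.1 (e (Sum.inr l)), p.2)}

theorem GT_mulB {κ : Type} [Fintype κ] [DecidableEq κ] {a b : κ} (hab : a ≠ b)
    {β : Matrix B B ℚ} (hβ : IsH D (bilc β)) {t : ({l // l ≠ a ∧ l ≠ b} → B) × C → ℚ}
    (ht : t ∈ GT D D' L N {l // l ≠ a ∧ l ≠ b}) :
    fW C (mulB a b β) t ∈ GT D D' L N κ := by
  have h1 := Submodule.mem_map_of_mem (f := fW C (mulB a b β)) ht
  unfold GT at h1
  rw [Submodule.map_span] at h1
  refine (Submodule.span_le.2 ?_) h1
  rintro _ ⟨_, ⟨r, m, e, β', V, s, hm, hβ', hV, hs, rfl⟩, rfl⟩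
  obtain ⟨e', he0, he1, hes, her⟩ := ext_equiv hab e
  refine Submodule.subset_span ⟨r + 1, m, e', Fin.cons β β', V, s, hm, fun i => ?_, hV, hs, ?_⟩
  · refine Fin.cases ?_ (fun i => ?_) i
    · exact hβ
    · exact hβ' i
  · funext p
    rw [Fin.prod_univ_succ]
    simp only [he0, he1, hes, her, Fin.cons_zero, Fin.cons_succ]
    rw [mul_assoc]
    rfl

/-- **The sub-Hodge structures of level at most `L` of the tensors with values in a Hodge structure
of level at most `w`**: they belong to every family of spaces which contains those with at most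
`L + w` variables and is stable under the multiplication with invariant bilinear forms. -/
theorem le_family (h : PolH D) (hcore : CoreP D)
    (hMS : ∀ (m : ℕ) (c : (Fin m × Fin 2 → B) → ℚ), IsH D c → c ∈ MS D m) {w : ℤ}
    (hw : Bdd D' w)
    (G : ∀ (κ : Type) [Fintype κ] [DecidableEq κ], Submodule ℚ ((κ → B) × C → ℚ))
    (hbase : ∀ (κ : Type) [Fintype κ] [DecidableEq κ], (Fintype.card κ : ℤ) ≤ L + w →
      ∀ V : Submodule ℚ ((κ → B) × C → ℚ), HT D D' L V → V ≤ G κ)
    (hmul : ∀ (κ : Type) [Fintype κ] [DecidableEq κ] (a b : κ) (β : Matrix B B ℚ), a ≠ b →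
      IsH D (bilc β) → ∀ t ∈ G {l // l ≠ a ∧ l ≠ b}, fW C (mulB a b β) t ∈ G κ) (n : ℕ) :
    ∀ (κ : Type) [Fintype κ] [DecidableEq κ], Fintype.card κ = n →
      ∀ V : Submodule ℚ ((κ → B) × C → ℚ), HT D D' L V → V ≤ G κ := by
  induction n using Nat.strong_induction_on with
  | _ n ih =>
    intro κ _ _ hn V hV
    by_cases hle : (Fintype.card κ : ℤ) ≤ L + w
    · exact hbase κ hle V hV
    · have hlt : L + w < (Fintype.card κ : ℤ) := not_le.1 hle
      obtain ⟨S, hS1, hS2⟩ := exists_gens D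
      set M : Submodule ℚ ((κ → B) × C → ℚ) := sSup {V | HT D D' L V} with hM
      have hMH : HT D D' L M := HT_sSup fun _ hV => hV
      have hmax : ∀ V' : Submodule ℚ ((κ → B) × C → ℚ), HT D D' L V' → V' ≤ M :=
        fun V' hV' => le_sSup hV'
      have hMsl : ∀ t ∈ M, ∀ c, sl c t ∈ IdQ D κ := fun t ht c =>
        le_IdQ h hcore hMS (HL_slices hw hMH) hlt (sl_mem_slices ht c)
      have hId := HL_IdQ (D := D) (κ := κ) h.dd
      have hstab : ∀ t ∈ M, fW C (h.KK κ S) t ∈ M := fun t ht =>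
        hmax _ (HT_map (h.isHM_KK hS1) hMH) (Submodule.mem_map_of_mem ht)
      let Kr : M →ₗ[ℚ] M := (fW C (h.KK κ S)).restrict hstab
      have hinj : Function.Injective Kr := by
        rw [← LinearMap.ker_eq_bot, LinearMap.ker_eq_bot']
        intro t ht
        have h1 : fW C (h.KK κ S) t.1 = 0 := congrArg Subtype.val ht
        apply Subtype.ext
        refine ext_sl fun c => ?_
        have h2 : h.KK κ S (sl c t.1) = 0 := by
          rw [← sl_fW, h1, map_zero]
        have h3 : ∀ x ∈ IdQ D κ, EB κ h.Om (sl c t.1) x = 0 :=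
          h.EB_IdQ fun a b β hab hβ =>
            con_of_gens hS2 (fun β hβ => h.pos_KK hS1 h2 a b hab hβ) hβ
        exact h.nondeg hId (hMsl t.1 t.2 c) h3
      have hsurj : Function.Surjective Kr := LinearMap.injective_iff_surjective.1 hinj
      intro t ht
      obtain ⟨s, hs⟩ := hsurj ⟨t, hmax V hV ht⟩
      have h1 : t = fW C (h.KK κ S) s.1 := (congrArg Subtype.val hs).symm
      have h2 : fW C (h.KK κ S) s.1 = ∑ p : {p : κ × κ // p.1 ≠ p.2}, ∑ β ∈ S,
          fW C (mulB p.1.1 p.1.2 β) (fW C (conB p.1.1 p.1.2 (h.Om * β * h.Omᵀ)) s.1) := by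
        refine ext_sl fun c => ?_
        rw [sl_fW, h.KK_apply, map_sum]
        refine Finset.sum_congr rfl fun p _ => ?_
        rw [map_sum]
        exact Finset.sum_congr rfl fun β _ => rfl
      rw [h1, h2]
      refine Submodule.sum_mem _ fun p _ => Submodule.sum_mem _ fun β hβ => ?_
      refine hmul κ p.1.1 p.1.2 β p.2 (hS1 β hβ) _ ?_
      have h3 := card_two p.2
      exact ih (Fintype.card {l // l ≠ p.1.1 ∧ l ≠ p.1.2}) (by omega) _ rfl
        (M.map (fW C (conB p.1.1 p.1.2 (h.Om * β * h.Omᵀ))))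
        (HT_map (h.isHM_conB p.2 (hS1 β hβ)) hMH) (Submodule.mem_map_of_mem s.2)

/-- **The sub-Hodge structures of level at most `L` of the tensors with values in a Hodge structure
of level at most `w`** are generated by those of the tensors with at most `L + w` variables. -/
theorem le_GT (h : PolH D) (hcore : CoreP D)
    (hMS : ∀ (m : ℕ) (c : (Fin m × Fin 2 → B) → ℚ), IsH D c → c ∈ MS D m) {w : ℤ}
    (hw : Bdd D' w) (κ : Type) [Fintype κ] [DecidableEq κ]
    (V : Submodule ℚ ((κ → B) × C → ℚ)) (hV : HT D D' L V) : V ≤ GT D D' L (L + w) κ := by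
  refine le_family h hcore hMS hw (fun κ _ _ => GT D D' L (L + w) κ) ?_ ?_ _ κ rfl V hV
  · intro κ _ _ hle V hV t ht
    let e : Fin (Fintype.card κ) ≃ κ := (Fintype.equivFin κ).symm
    let R : ((κ → B) → ℚ) →ₗ[ℚ] ((Fin (Fintype.card κ) → B) → ℚ) :=
      { toFun := fun c I => c (fun k => I (e.symm k))
        map_add' := fun _ _ => rfl
        map_smul' := fun _ _ => rfl }
    refine Submodule.subset_span ⟨0, Fintype.card κ,
      (Equiv.emptySum (Fin 0 × Fin 2) (Fin (Fintype.card κ))).trans e, fun i => i.elim0,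
      V.map (fW C R), fW C R t, hle, fun i => i.elim0, HT_map (isHM_reindex D e) hV,
      Submodule.mem_map_of_mem ht, ?_⟩
    funext p
    rw [Fin.prod_univ_zero, one_mul]
    change t p = t (fun k => p.1 (e (e.symm k)), p.2)
    simp only [Equiv.apply_symm_apply]
  · intro κ _ _ a b β hab hβ t ht
    exact GT_mulB hab hβ ht

end

end Pool.Agent.K6.H94.DL
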