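import Mathlib
import Pool.Agent.K6.H94.DL.Gen

/-!
# Absolutely Hodge tensors with values in a Hodge structure of bounded level
-/

set_option linter.unusedSectionVars false

namespace Pool.Agent.K6.H94.DL

open Matrix Equiv Pool.Agent.H204R3.SP Pool.Agent.W437.HC Pool.Agent.W437.HD Pool.Agent.W437.HP
  Pool.Agent.TH131.GHC

noncomputable section

section wl

variable {B : Type*} [Fintype B] [DecidableEq B] {κ : Type*} [Fintype κ] [DecidableEq κ]
  {κ' : Type*} [Fintype κ'] [DecidableEq κ'] {K : Type*} [Field K]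

theorem wl_mulB {a b : κ} (hab : a ≠ b) (P β : Matrix B B K)
    (c : ({l // l ≠ a ∧ l ≠ b} → B) → K) :
    wl P (mulB a b β c) = mulB a b (Pᵀ * β * P) (wl P c) := by
  funext X
  have h1 : ∀ (X' : {l // l ≠ a ∧ l ≠ b} → B) (u w : B),
      mulB a b β c (fill a b u w X') * ∏ k, P (fill a b u w X' k) (X k) =
      (P u (X a) * β u w * P w (X b)) * (c X' * ∏ l : {l // l ≠ a ∧ l ≠ b}, P (X' l) (X l.1)) := by
    intro X' u w
    rw [prod_split hab, mulB_apply, fill_p, fill_k hab]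
    have h3 : (fun l : {l // l ≠ a ∧ l ≠ b} => fill a b u w X' l.1) = X' := by
      funext l
      exact fill_l a b u w X' l
    rw [h3]
    simp only [fill_l]
    ring
  have h2 : ∑ u, ∑ w, P u (X a) * β u w * P w (X b) = (Pᵀ * β * P) (X a) (X b) := by
    simp only [Matrix.mul_apply, transpose_apply, Finset.sum_mul]
    rw [Finset.sum_comm]
  change ∑ I', mulB a b β c I' * ∏ k, P (I' k) (X k) = _
  rw [sum_fill hab]
  simp only [h1, ← Finset.sum_mul]
  rw [h2, mulB_apply, ← Finset.mul_sum]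
  rfl

theorem wl_reindex (e : κ' ≃ κ) (P : Matrix B B K) (c : (κ' → B) → K) (X : κ → B) :
    wl P (fun I : κ → B => c (fun l => I (e l))) X = wl P c (fun l => X (e l)) := by
  unfold wl
  refine Fintype.sum_equiv (Equiv.arrowCongr e.symm (Equiv.refl B)) _ _ fun I => ?_
  have h1 : (fun l => I (e l)) = (Equiv.arrowCongr e.symm (Equiv.refl B)) I := by
    funext l
    simp [Equiv.arrowCongr]
  rw [← h1]
  congr 1
  exact (Equiv.prod_comp e (fun k => P (I k) (X k))).symm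

end wl

section hdg

variable {B : Type*} [Fintype B] [DecidableEq B] {C : Type*} [Fintype C] [DecidableEq C]
  {κ : Type*} [Fintype κ] [DecidableEq κ] {κ' : Type*} [Fintype κ'] [DecidableEq κ']
  {D : Matrix B B ℂ} {D' : Matrix C C ℂ}

/-- A rational tensor killed by the total Hodge operator. -/
def HdgT (D : Matrix B B ℂ) (D' : Matrix C C ℂ) (t : (κ → B) × C → ℚ) : Prop :=
  opD κ C D (cstX t) + opW κ B D' (cstX t) = 0

theorem HdgT_of_HT {V : Submodule ℚ ((κ → B) × C → ℚ)} (hV : HT D D' 0 V)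
    {t : (κ → B) × C → ℚ} (ht : t ∈ V) : HdgT D D' t := by
  have h1 : cxX V ≤ eigT κ D D' 0 := by
    refine HT_ind hV fun n hn z _ hz => ?_
    have h2 : n = 0 := abs_nonpos_iff.1 hn
    rwa [h2] at hz
  have h3 := mem_eigT.1 (h1 (cstX_mem ht))
  rw [Int.cast_zero, zero_smul] at h3
  exact h3

theorem HT_of_HdgT {t : (κ → B) × C → ℚ} (ht : HdgT D D' t) :
    HT D D' 0 (Submodule.span ℚ {t}) := by
  intro x hx
  obtain ⟨q, rfl⟩ := Submodule.mem_span_singleton.1 hx
  refine Submodule.mem_iSup_of_mem (⟨0, by simp⟩ : {n : ℤ // |n| ≤ 0}) ⟨cstX_mem hx, ?_⟩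
  change opD κ C D (cstX (q • t)) + opW κ B D' (cstX (q • t)) =
    ((0 : ℤ) : ℂ) • cstX (q • t)
  have h1 : opD κ C D (cstX t) + opW κ B D' (cstX t) = 0 := ht
  rw [Int.cast_zero, zero_smul, cstX_smul, map_smul, map_smul, ← smul_add, h1, smul_zero]

theorem HdgT_map {f : ((κ → B) → ℚ) →ₗ[ℚ] ((κ' → B) → ℚ)} (hf : IsHM D f)
    {t : (κ → B) × C → ℚ} (ht : HdgT D D' t) : HdgT D D' (fW C f t) := by
  obtain ⟨fC, h1, h2⟩ := hf
  unfold HdgT at ht ⊢
  rw [← fW_cstX h1]
  have h5 : opD κ' C D (fW C fC (cstX t)) = fW C fC (opD κ C D (cstX t)) := by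
    refine ext_sl fun c => ?_
    rw [sl_opD, sl_fW, sl_fW, sl_opD, h2]
  rw [h5, ← fW_opW, ← map_add, ht, map_zero]

theorem HdgT_reindex (e : κ' ≃ κ) {t : (κ → B) × C → ℚ} (ht : HdgT D D' t) :
    HdgT D D' (fun p : (κ' → B) × C => t (fun k => p.1 (e.symm k), p.2)) :=
  HdgT_map (isHM_reindex D e) ht

theorem HdgT_add {s t : (κ → B) × C → ℚ} (hs : HdgT D D' s) (ht : HdgT D D' t) :
    HdgT D D' (s + t) := by
  unfold HdgT at hs ht ⊢
  rw [cstX_add, map_add, map_add]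
  have : opD κ C D (cstX s) + opD κ C D (cstX t) + (opW κ B D' (cstX s) + opW κ B D' (cstX t)) =
    (opD κ C D (cstX s) + opW κ B D' (cstX s)) + (opD κ C D (cstX t) + opW κ B D' (cstX t)) := by
    abel
  rw [this, hs, ht, add_zero]

theorem HdgT_smul (q : ℚ) {t : (κ → B) × C → ℚ} (ht : HdgT D D' t) : HdgT D D' (q • t) := by
  unfold HdgT at ht ⊢
  rw [cstX_smul, map_smul, map_smul, ← smul_add, ht, smul_zero]

theorem HdgT_zero : HdgT D D' (0 : (κ → B) × C → ℚ) := by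
  unfold HdgT
  rw [cstX_zero, map_zero, map_zero, add_zero]

/-- The component of the values of degree `b`. -/
def prj {K : Type*} [Field K] (κ : Type*) (B : Type*) (dg : C → ℕ) (b : ℕ) :
    ((κ → B) × C → K) →ₗ[K] ((κ → B) × C → K) where
  toFun t := fun p => if dg p.2 = b then t p else 0
  map_add' t t' := by
    funext p
    simp only [Pi.add_apply]
    split_ifs
    · rfl
    · rw [add_zero]
  map_smul' r t := by
    funext p
    simp only [Pi.smul_apply, smul_eq_mul, RingHom.id_apply]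
    split_ifs
    · rfl
    · rw [mul_zero]

theorem prj_apply {K : Type*} [Field K] (dg : C → ℕ) (b : ℕ) (t : (κ → B) × C → K)
    (p : (κ → B) × C) : prj κ B dg b t p = if dg p.2 = b then t p else 0 := rfl

theorem sl_prj {K : Type*} [Field K] (dg : C → ℕ) (b : ℕ) (t : (κ → B) × C → K) (c : C) :
    sl c (prj κ B dg b t) = if dg c = b then sl c t else 0 := by
  funext I
  rw [sl_apply, prj_apply]
  split_ifs <;> rfl

theorem cstX_prj (dg : C → ℕ) (b : ℕ) (t : (κ → B) × C → ℚ) :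
    cstX (prj κ B dg b t) = prj κ B dg b (cstX t) := by
  funext p
  rw [prj_apply]
  change ((prj κ B dg b t p : ℚ) : ℂ) = _
  rw [prj_apply]
  split_ifs
  · rfl
  · exact Rat.cast_zero

theorem fW_prj {K : Type*} [Field K] (f : ((κ → B) → K) →ₗ[K] ((κ' → B) → K)) (dg : C → ℕ)
    (b : ℕ) (t : (κ → B) × C → K) : fW C f (prj κ B dg b t) = prj κ' B dg b (fW C f t) := by
  refine ext_sl fun c => ?_
  rw [sl_fW, sl_prj, sl_prj, sl_fW]
  split_ifs
  · rfl
  · rw [map_zero]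

theorem opW_prj {dg : C → ℕ} (hgr : ∀ c c', dg c ≠ dg c' → D' c c' = 0) (b : ℕ)
    (t : (κ → B) × C → ℂ) : opW κ B D' (prj κ B dg b t) = prj κ B dg b (opW κ B D' t) := by
  funext p
  rw [prj_apply, opW_apply, opW_apply]
  split_ifs with hp
  · refine Finset.sum_congr rfl fun c _ => ?_
    rw [prj_apply]
    by_cases hc : dg c = b
    · rw [if_pos hc]
    · rw [if_neg hc, hgr _ _ (by rw [hp]; exact Ne.symm hc), zero_mul, zero_mul]
  · refine Finset.sum_eq_zero fun c _ => ?_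
    rw [prj_apply]
    by_cases hc : dg c = b
    · rw [hgr _ _ (by rw [hc]; exact hp), zero_mul]
    · rw [if_neg hc, mul_zero]

theorem HdgT_prj {dg : C → ℕ} (hgr : ∀ c c', dg c ≠ dg c' → D' c c' = 0) (b : ℕ)
    {t : (κ → B) × C → ℚ} (ht : HdgT D D' t) : HdgT D D' (prj κ B dg b t) := by
  unfold HdgT at ht ⊢
  rw [cstX_prj, opW_prj hgr]
  have h1 : opD κ C D (prj κ B dg b (cstX t)) = prj κ B dg b (opD κ C D (cstX t)) :=
    fW_prj _ _ _ _
  rw [h1, ← map_add, ht, map_zero]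

theorem prj_deg (dg : C → ℕ) (b : ℕ) (t : (κ → B) × C → ℚ) (p : (κ → B) × C)
    (h : prj κ B dg b t p ≠ 0) : dg p.2 = b := by
  by_contra h1
  rw [prj_apply, if_neg h1] at h
  exact h rfl

theorem prj_eq {dg : C → ℕ} {b : ℕ} {t : (κ → B) × C → ℚ} (h : ∀ p, t p ≠ 0 → dg p.2 = b) :
    prj κ B dg b t = t := by
  funext p
  rw [prj_apply]
  split_ifs with h1
  · rfl
  · by_contra h2
    exact h1 (h p (Ne.symm h2))

end hdg

section cmp

variable {B : Type} [Fintype B] [DecidableEq B] {C : Type} [Fintype C] [DecidableEq C]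
  {D D₂ : Matrix B B ℂ} {D' D₂' : Matrix C C ℂ} {dg : C → ℕ} {K : Type} [Field K] [CharZero K]

/-- The comparison isomorphisms between two Hodge structures on the same spaces, in coordinates. -/
structure Cmp (D D₂ : Matrix B B ℂ) (D' D₂' : Matrix C C ℂ) (dg : C → ℕ) (K : Type) [Field K]
    [CharZero K] where
  /-- the isomorphism of the homology groups `H_1` -/
  P : Matrix B B K
  /-- the isomorphism of the values -/
  F : Matrix C C K
  /-- the isomorphism of the Tate twists -/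
  u : K
  gr : ∀ c c', dg c ≠ dg c' → D' c c' = 0
  lef : ∀ β : Matrix B B ℚ, IsH D (bilc β) → ∃ β' : Matrix B B ℚ, IsH D₂ (bilc β') ∧
    Pᵀ * β'.map (fun x : ℚ => (x : K)) * P = u • β.map (fun x : ℚ => (x : K))

/-- The rational tensors with values of degree `b` which correspond to Hodge tensors with values of
degree `b`, up to the twist by `i`. -/
def TR (X : Cmp D D₂ D' D₂' dg K) (κ : Type) [Fintype κ] [DecidableEq κ] (b i : ℕ) :
    Submodule ℚ ((κ → B) × C → ℚ) where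
  carrier := {t | ∃ t' : (κ → B) × C → ℚ, HdgT D₂ D₂' t' ∧ (∀ p, t' p ≠ 0 → dg p.2 = b) ∧
    ∀ p, X.u ^ i * ((t p : ℚ) : K) =
      ∑ c', X.F p.2 c' * wl X.P (fun I => ((t' (I, c') : ℚ) : K)) p.1}
  zero_mem' := by
    refine ⟨0, HdgT_zero, fun p hp => absurd rfl hp, fun p => ?_⟩
    rw [Pi.zero_apply, Rat.cast_zero, mul_zero]
    refine (Finset.sum_eq_zero fun c' _ => ?_).symm
    simp [wl]
  add_mem' := by
    rintro s t ⟨s', hs1, hs2, hs3⟩ ⟨t', ht1, ht2, ht3⟩
    refine ⟨s' + t', HdgT_add hs1 ht1, fun p hp => ?_, fun p => ?_⟩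
    · by_cases h : s' p = 0
      · refine ht2 p fun h' => hp ?_
        rw [Pi.add_apply, h, h', add_zero]
      · exact hs2 p h
    · rw [Pi.add_apply, Rat.cast_add, mul_add, hs3, ht3, ← Finset.sum_add_distrib]
      refine Finset.sum_congr rfl fun c' _ => ?_
      rw [← mul_add, ← Pi.add_apply (wl X.P _), ← wl_add]
      congr 2
      funext I
      simp
  smul_mem' := by
    rintro q t ⟨t', ht1, ht2, ht3⟩
    refine ⟨q • t', HdgT_smul q ht1, fun p hp => ?_, fun p => ?_⟩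
    · refine ht2 p fun h' => hp ?_
      rw [Pi.smul_apply, h', smul_zero]
    · rw [Pi.smul_apply, smul_eq_mul, Rat.cast_mul]
      have h1 : X.u ^ i * ((q : K) * ((t p : ℚ) : K)) = (q : K) * (X.u ^ i * ((t p : ℚ) : K)) := by
        ring
      rw [h1, ht3, Finset.mul_sum]
      refine Finset.sum_congr rfl fun c' _ => ?_
      have h2 : wl X.P (fun I => (((q • t') (I, c') : ℚ) : K)) p.1 =
          (q : K) * wl X.P (fun I => ((t' (I, c') : ℚ) : K)) p.1 := by
        simp only [wl, Pi.smul_apply, smul_eq_mul, Rat.cast_mul, Finset.mul_sum, mul_assoc]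
      rw [h2]
      ring

theorem TR_reindex (X : Cmp D D₂ D' D₂' dg K) {κ κ' : Type} [Fintype κ] [DecidableEq κ]
    [Fintype κ'] [DecidableEq κ'] (e : κ' ≃ κ) {b i : ℕ} {t : (κ → B) × C → ℚ}
    (ht : (fun p : (κ' → B) × C => t (fun k => p.1 (e.symm k), p.2)) ∈ TR X κ' b i) :
    t ∈ TR X κ b i := by
  obtain ⟨s', h1, h2, h3⟩ := ht
  refine ⟨fun p => s' (fun l => p.1 (e l), p.2), ?_, fun p hp => h2 _ hp, fun p => ?_⟩
  · exact HdgT_map (isHM_reindex D₂ e.symm) h1
  · have h4 := h3 (fun l => p.1 (e l), p.2)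
    simp only [Equiv.apply_symm_apply] at h4
    rw [h4]
    refine Finset.sum_congr rfl fun c' _ => ?_
    rw [← wl_reindex e]

/-- The tensors whose components of all degrees are absolutely Hodge. -/
def GG (X : Cmp D D₂ D' D₂' dg K) (κ : Type) [Fintype κ] [DecidableEq κ] :
    Submodule ℚ ((κ → B) × C → ℚ) :=
  ⨅ q : {q : ℕ × ℕ // Fintype.card κ + q.1 = 2 * q.2},
    (TR X κ q.1.1 q.1.2).comap (prj κ B dg q.1.1)

theorem mem_GG (X : Cmp D D₂ D' D₂' dg K) {κ : Type} [Fintype κ] [DecidableEq κ]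
    (t : (κ → B) × C → ℚ) :
    t ∈ GG X κ ↔ ∀ b i, Fintype.card κ + b = 2 * i → prj κ B dg b t ∈ TR X κ b i := by
  unfold GG
  rw [Submodule.mem_iInf]
  exact ⟨fun h b i hbi => h ⟨(b, i), hbi⟩, fun h q => h q.1.1 q.1.2 q.2⟩

theorem GG_mul (X : Cmp D D₂ D' D₂' dg K) {κ : Type} [Fintype κ] [DecidableEq κ] {a b : κ}
    {β : Matrix B B ℚ} (hab : a ≠ b) (hβ : IsH D (bilc β))
    {t : ({l // l ≠ a ∧ l ≠ b} → B) × C → ℚ} (ht : t ∈ GG X {l // l ≠ a ∧ l ≠ b}) :
    fW C (mulB a b β) t ∈ GG X κ := by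
  rw [mem_GG] at ht ⊢
  intro b' i hbi
  have h3 := card_two hab
  obtain ⟨j, rfl⟩ : ∃ j, i = j + 1 := ⟨i - 1, by omega⟩
  obtain ⟨s', hs1, hs2, hs3⟩ := ht b' j (by omega)
  obtain ⟨β', hβ', hPβ⟩ := X.lef β hβ
  rw [← fW_prj]
  refine ⟨fW C (mulB a b β') s', HdgT_map (isHM_mulB hab hβ') hs1, fun p hp => ?_,
    fun p => ?_⟩
  · change mulB a b β' (fun I => s' (I, p.2)) p.1 ≠ 0 at hp
    rw [mulB_apply] at hp
    exact hs2 _ (right_ne_zero_of_mul hp)
  · change X.u ^ (j + 1) * ((mulB a b β (fun I => prj _ B dg b' t (I, p.2)) p.1 : ℚ) : K) =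
      ∑ c', X.F p.2 c' * wl X.P (fun I => ((mulB a b β' (fun I => s' (I, c')) I : ℚ) : K)) p.1
    have h4 : ∀ c', wl X.P (fun I => ((mulB a b β' (fun I => s' (I, c')) I : ℚ) : K)) p.1 =
        (X.u * (β (p.1 a) (p.1 b) : K)) *
          wl X.P (fun I => ((s' (I, c') : ℚ) : K)) (fun l => p.1 l.1) := by
      intro c'
      have h5 : (fun I => ((mulB a b β' (fun I => s' (I, c')) I : ℚ) : K)) =
          mulB a b (β'.map (fun x : ℚ => (x : K))) (fun I => ((s' (I, c') : ℚ) : K)) := by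
        funext I
        rw [mulB_apply, mulB_apply, Rat.cast_mul]
        rfl
      rw [h5, wl_mulB hab, hPβ, mulB_apply]
      rfl
    simp only [h4]
    rw [mulB_apply, Rat.cast_mul]
    have h6 : X.u ^ (j + 1) * (((β (p.1 a) (p.1 b) : ℚ) : K) *
        ((prj _ B dg b' t ((fun l => p.1 l.1), p.2) : ℚ) : K)) =
        (X.u * ((β (p.1 a) (p.1 b) : ℚ) : K)) * (X.u ^ j *
          ((prj _ B dg b' t ((fun l => p.1 l.1), p.2) : ℚ) : K)) := by
      ring
    rw [h6, hs3, Finset.mul_sum]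
    exact Finset.sum_congr rfl fun c' _ => by ring

theorem GG_base (X : Cmp D D₂ D' D₂' dg K) {w : ℤ}
    (hyp : ∀ (a b i : ℕ) (s : (Fin a → B) × C → ℚ), (a : ℤ) ≤ w → a + b = 2 * i →
      HdgT D D' s → (∀ p, s p ≠ 0 → dg p.2 = b) → s ∈ TR X (Fin a) b i)
    {κ : Type} [Fintype κ] [DecidableEq κ] (hle : (Fintype.card κ : ℤ) ≤ w)
    {t : (κ → B) × C → ℚ} (ht : HdgT D D' t) : t ∈ GG X κ := by
  rw [mem_GG]
  intro b i hbi
  let e : Fin (Fintype.card κ) ≃ κ := (Fintype.equivFin κ).symm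
  have h1 := HdgT_reindex e (HdgT_prj X.gr b ht)
  refine TR_reindex X e (hyp _ b i _ hle hbi h1 ?_)
  intro p hp
  exact prj_deg dg b t _ hp

/-- **Hodge tensors with values in a Hodge structure of level at most `w` are absolutely Hodge if
this is so for the tensors with at most `w` variables.** -/
theorem main_ten (h : PolH D) (hcore : CoreP D)
    (hMS : ∀ (m : ℕ) (c : (Fin m × Fin 2 → B) → ℚ), IsH D c → c ∈ MS D m) {w : ℤ}
    (hw : Bdd D' w) (X : Cmp D D₂ D' D₂' dg K)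
    (hyp : ∀ (a b i : ℕ) (s : (Fin a → B) × C → ℚ), (a : ℤ) ≤ w → a + b = 2 * i →
      HdgT D D' s → (∀ p, s p ≠ 0 → dg p.2 = b) → s ∈ TR X (Fin a) b i)
    (κ : Type) [Fintype κ] [DecidableEq κ] (b i : ℕ) (t : (κ → B) × C → ℚ)
    (hbi : Fintype.card κ + b = 2 * i) (ht : HdgT D D' t) (htb : ∀ p, t p ≠ 0 → dg p.2 = b) :
    t ∈ TR X κ b i := by
  have h1 : t ∈ GG X κ := le_family (L := 0) h hcore hMS hw (fun κ _ _ => GG X κ)
    (fun κ _ _ hle V hV t ht => GG_base X hyp (by rwa [zero_add] at hle) (HdgT_of_HT hV ht))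
    (fun κ _ _ a b β hab hβ t ht => GG_mul X hab hβ ht) _ κ rfl _ (HT_of_HdgT ht)
    (Submodule.mem_span_singleton_self t)
  have h2 := (mem_GG X t).1 h1 b i hbi
  rwa [prj_eq htb] at h2

end cmp

end

end Pool.Agent.K6.H94.DL
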