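import Mathlib
import Pool.Agent.K6.H94.DL.Defs
import Pool.Agent.K6.H94.DL.Ten

/-!
# Classes of `A ^ m × Z` and tensors
-/

set_option linter.unusedSectionVars false

namespace Pool.Agent.K6.H94.DL

open Matrix Equiv Pool.Agent.H204R3.SP Pool.Agent.W437.HC Pool.Agent.W437.HD Pool.Agent.W437.HP
  Pool.Agent.TH131.GHC

noncomputable section

section slice

variable {B : Type} [Fintype B] [DecidableEq B] {κ : Type} [Fintype κ] [DecidableEq κ]
  {K : Type} [Field K] {m : ℕ}

theorem pw_apply (M : Matrix B B K) (p q : Fin m × B) :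
    pw m M p q = if p.1 = q.1 then M p.2 q.2 else 0 := rfl

/-- The action of a matrix on each of the copies. -/
theorem act_pw (M : Matrix B B K) (c : (κ → Fin m × B) → K) (J : κ → Fin m × B) :
    act (pw m M) c J = act M (fun I : κ → B => c (fun l => ((J l).1, I l))) (fun l => (J l).2) := by
  unfold act
  refine Finset.sum_congr rfl fun k _ => ?_
  rw [Fintype.sum_prod_type, Finset.sum_eq_single (J k).1]
  · refine Finset.sum_congr rfl fun j _ => ?_
    rw [pw_apply, if_pos rfl]
    congr 2
    funext l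
    by_cases hl : l = k
    · subst hl
      rw [Function.update_self, Function.update_self]
    · rw [Function.update_of_ne hl, Function.update_of_ne hl]
  · intro s _ hs
    refine Finset.sum_eq_zero fun j _ => ?_
    rw [pw_apply, if_neg hs, zero_mul]
  · intro h
    exact absurd (Finset.mem_univ _) h

/-- The substitution of a matrix in each of the copies. -/
theorem wl_pw (M : Matrix B B K) (c : (κ → Fin m × B) → K) (J : κ → Fin m × B) :
    wl (pw m M) c J = wl M (fun I : κ → B => c (fun l => ((J l).1, I l))) (fun l => (J l).2) := by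
  unfold wl
  let f : (κ → B) → (κ → Fin m × B) := fun I l => ((J l).1, I l)
  have hf : Function.Injective f := by
    intro I I' h
    funext l
    exact congrArg Prod.snd (congrFun h l)
  rw [← Finset.sum_subset (Finset.subset_univ (Finset.univ.image f))]
  · rw [Finset.sum_image fun _ _ _ _ h => hf h]
    refine Finset.sum_congr rfl fun I _ => ?_
    congr 1
    refine Finset.prod_congr rfl fun l _ => ?_
    rw [pw_apply, if_pos rfl]
  · intro J' _ hJ'
    obtain ⟨l, hl⟩ : ∃ l, (J' l).1 ≠ (J l).1 := by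
      by_contra hcon
      push Not at hcon
      apply hJ'
      rw [Finset.mem_image]
      refine ⟨fun l => (J' l).2, Finset.mem_univ _, ?_⟩
      funext l
      exact Prod.ext (hcon l).symm rfl
    rw [Finset.prod_eq_zero (Finset.mem_univ l), mul_zero]
    rw [pw_apply, if_neg hl]

variable {C : Type} [Fintype C] [DecidableEq C] {D : Matrix B B ℂ} {D' : Matrix C C ℂ}

/-- A tensor is a Hodge tensor if and only if this is so for its restrictions to the copies. -/
theorem HdgT_iff {B' : Type} [Fintype B'] [DecidableEq B'] {E : Matrix B' B' ℂ}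
    {t : (κ → B') × C → ℚ} : HdgT E D' t ↔ ∀ (J : κ → B') (c : C),
      act E (fun J => ((t (J, c) : ℚ) : ℂ)) J + ∑ c', D' c c' * ((t (J, c') : ℚ) : ℂ) = 0 := by
  constructor
  · intro h J c
    exact congrFun h (J, c)
  · intro h
    funext p
    exact h p.1 p.2

theorem HdgT_pw {t : (κ → Fin m × B) × C → ℚ} : HdgT (pw m D) D' t ↔
    ∀ σ : κ → Fin m, HdgT D D' (fun p : (κ → B) × C => t (fun l => (σ l, p.1 l), p.2)) := by
  rw [HdgT_iff]
  constructor
  · intro h σ
    rw [HdgT_iff]
    intro I c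
    have h1 := h (fun l => (σ l, I l)) c
    rw [act_pw] at h1
    exact h1
  · intro h J c
    have h1 := (HdgT_iff.1 (h fun l => (J l).1)) (fun l => (J l).2) c
    rw [act_pw]
    exact h1

end slice

section asym

variable {B : Type} [Fintype B] [DecidableEq B] {C : Type} [Fintype C] [DecidableEq C]
  {κ : Type} [Fintype κ] [DecidableEq κ] {D : Matrix B B ℂ} {D' : Matrix C C ℂ}

/-- The antisymmetrization. -/
def asy (t : (κ → B) × C → ℚ) : (κ → B) × C → ℚ :=
  ∑ π : Equiv.Perm κ, ((Equiv.Perm.sign π : ℤ) : ℚ) • fun p : (κ → B) × C =>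
    t (fun l => p.1 (π l), p.2)

theorem asy_apply (t : (κ → B) × C → ℚ) (J : κ → B) (c : C) :
    asy t (J, c) = ∑ π : Equiv.Perm κ, ((Equiv.Perm.sign π : ℤ) : ℚ) * t (fun l => J (π l), c) := by
  unfold asy
  rw [Finset.sum_apply]
  rfl

theorem HdgT_asy {t : (κ → B) × C → ℚ} (ht : HdgT D D' t) : HdgT D D' (asy t) := by
  unfold asy
  have h1 : ∀ s : Finset (Equiv.Perm κ), HdgT D D' (∑ π ∈ s,
      ((Equiv.Perm.sign π : ℤ) : ℚ) • fun p : (κ → B) × C => t (fun l => p.1 (π l), p.2)) := by
    intro s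
    induction s using Finset.induction_on with
    | empty =>
      rw [Finset.sum_empty]
      exact HdgT_zero
    | insert π s hπ ih =>
      rw [Finset.sum_insert hπ]
      exact HdgT_add (HdgT_smul _ (HdgT_reindex π.symm ht)) ih
  exact h1 _

theorem asy_perm (t : (κ → B) × C → ℚ) (ρ : Equiv.Perm κ) (J : κ → B) (c : C) :
    asy t (fun l => J (ρ l), c) = ((Equiv.Perm.sign ρ : ℤ) : ℚ) * asy t (J, c) := by
  rw [asy_apply, asy_apply, Finset.mul_sum]
  refine Fintype.sum_equiv (Equiv.mulLeft ρ) _ _ fun π => ?_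
  rw [Equiv.coe_mulLeft, map_mul]
  have h1 : ((Equiv.Perm.sign ρ : ℤ) : ℚ) * ((Equiv.Perm.sign ρ : ℤ) : ℚ) = 1 := by
    rcases Int.units_eq_one_or (Equiv.Perm.sign ρ) with h | h <;> rw [h] <;> norm_num
  push_cast
  rw [← mul_assoc, ← mul_assoc, h1, one_mul]
  rfl

end asym

section main

variable {B : Type} [Fintype B] [DecidableEq B] {v : ℕ}

theorem isHodge_iff (X : Emb B v) (i : ℕ) (β : Cls B v ℚ) : X.IsHodge i β ↔
    IsClass X.V (2 * i) β ∧ ∀ k, HdgT X.D X.V.z (fun p : (Fin k → B) × Fin v => β k p.1 p.2) := by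
  unfold Emb.IsHodge
  refine and_congr_right fun _ => forall_congr' fun k => ?_
  rw [HdgT_iff]
  rfl

/-- The comparison isomorphisms in coordinates. -/
def toCmp {X X' : Emb B v} {K : Type} [Field K] [CharZero K] (Q : Comparison X X' K) :
    Cmp X.D X'.D X.V.z X'.V.z X.V.dg K where
  P := Q.P
  F := Q.F
  u := Q.u
  gr := X.V.graded
  lef := by
    have hiff : ∀ (E : Matrix B B ℂ) (β : Matrix B B ℚ), IsH E (bilc β) ↔
        E.transpose * β.map (fun x : ℚ => (x : ℂ)) + β.map (fun x : ℚ => (x : ℂ)) * E = 0 := by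
      intro E β
      have h1 : cst ℂ (bilc β) = bilc (β.map (fun x : ℚ => (x : ℂ))) := by
        funext I
        rfl
      unfold IsH
      rw [h1]
      constructor
      · intro h
        ext i j
        have h2 := congrFun h ![i, j]
        rw [act_bilc] at h2
        exact h2
      · intro h
        funext I
        rw [act_bilc, h]
        rfl
    intro β hβ
    obtain ⟨β', h1, h2⟩ := Q.lefschetz β ((hiff _ _).1 hβ)
    exact ⟨β', (hiff _ _).2 h1, h2⟩

variable {X X' : Emb B v} {K : Type} [Field K] [CharZero K]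

/-- Deligne's conjecture for `A ^ m × Z` implies the one for the tensors in at most `m` variables. -/
theorem tensors_of_deligne (Q : Comparison X X' K) {m : ℕ} (hQ : Deligne Q m) (a b i : ℕ)
    (s : (Fin a → B) × Fin v → ℚ) (ha : a ≤ m) (hab : a + b = 2 * i)
    (hs : HdgT X.D X.V.z s) (hsb : ∀ p, s p ≠ 0 → X.V.dg p.2 = b) :
    s ∈ TR (toCmp Q) (Fin a) b i := by
  classical
  -- the tensor on the product of the copies
  let ι : Fin a → Fin m := Fin.castLE ha
  have hι : Function.Injective ι := Fin.castLE_injective ha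
  let t : (Fin a → Fin m × B) × Fin v → ℚ := fun p =>
    if (fun l => (p.1 l).1) = ι then s (fun l => (p.1 l).2, p.2) else 0
  have ht : HdgT (pw m X.D) X.V.z t := by
    rw [HdgT_pw]
    intro σ
    by_cases hσ : σ = ι
    · have h1 : (fun p : (Fin a → B) × Fin v => t (fun l => (σ l, p.1 l), p.2)) = s := by
        funext p
        exact if_pos hσ
      rw [h1]
      exact hs
    · have h1 : (fun p : (Fin a → B) × Fin v => t (fun l => (σ l, p.1 l), p.2)) = 0 := by
        funext p
        exact if_neg hσ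
      rw [h1]
      exact HdgT_zero
  -- the class
  obtain ⟨β, hβa, hβ0⟩ : ∃ β : Cls (Fin m × B) v ℚ, (∀ J c, β a J c = asy t (J, c)) ∧
      ∀ k, a ≠ k → ∀ J c, β k J c = 0 :=
    ⟨fun k J c => if h : a = k then asy t (fun l => J (Fin.cast h l), c) else 0,
      fun J c => dif_pos rfl, fun k hk J c => dif_neg hk⟩
  have hβ : (X.pow m).IsHodge i β := by
    rw [isHodge_iff]
    refine ⟨⟨fun k J c h0 => ?_, fun k π J c => ?_⟩, fun k => ?_⟩
    · by_cases hk : a = k
      · subst hk
        rw [hβa, asy_apply] at h0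
        obtain ⟨π, -, hπ⟩ := Finset.exists_ne_zero_of_sum_ne_zero h0
        have h1 := right_ne_zero_of_mul hπ
        have h2 : s (fun l => (J (π l)).2, c) ≠ 0 := by
          intro h3
          apply h1
          change (if _ then s _ else 0) = 0
          rw [ite_eq_right_iff]
          exact fun _ => h3
        have h3 := hsb _ h2
        change a + X.V.dg c = 2 * i
        rw [← hab, ← h3]
      · exact absurd (hβ0 k hk J c) h0
    · by_cases hk : a = k
      · subst hk
        rw [hβa, hβa]
        exact asy_perm t π J c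
      · rw [hβ0 k hk (fun l => J (π l)) c, hβ0 k hk J c, mul_zero]
    · by_cases hk : a = k
      · subst hk
        have h1 : (fun p : (Fin a → Fin m × B) × Fin v => β a p.1 p.2) = asy t := by
          funext p
          exact hβa _ _
        rw [h1]
        exact HdgT_asy ht
      · have h1 : (fun p : (Fin k → Fin m × B) × Fin v => β k p.1 p.2) = 0 := by
          funext p
          exact hβ0 k hk _ _
        rw [h1]
        exact HdgT_zero
  -- Deligne's conjecture
  have hone : ∀ (k : ℕ) (J J' : Fin k → Fin m × B), (∏ l, (1 : Matrix (Fin m × B) (Fin m × B) K)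
      (J' l) (J l)) = if J' = J then 1 else 0 := by
    intro k J J'
    split_ifs with h
    · rw [h]
      exact Finset.prod_eq_one fun l _ => Matrix.one_apply_eq _
    · obtain ⟨l, hl⟩ : ∃ l, J' l ≠ J l := by
        by_contra hcon
        push Not at hcon
        exact h (funext hcon)
      exact Finset.prod_eq_zero (Finset.mem_univ l) (Matrix.one_apply_ne hl)
  obtain ⟨β', hβ', hcor⟩ := hQ i (fun k J c => ((β k J c : ℚ) : K)) ⟨β, hβ, fun k J c => by
    rw [one_pow, one_mul, Finset.sum_eq_single c]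
    · rw [Matrix.one_apply_eq, one_mul, Finset.sum_eq_single J]
      · rw [hone, if_pos rfl, mul_one]
      · intro J' _ hJ'
        rw [hone, if_neg hJ', mul_zero]
      · intro h
        exact absurd (Finset.mem_univ _) h
    · intro c' _ hc'
      rw [Matrix.one_apply_ne (Ne.symm hc'), zero_mul]
    · intro h
      exact absurd (Finset.mem_univ _) h⟩
  rw [isHodge_iff] at hβ'
  refine ⟨fun p => β' a (fun l => (ι l, p.1 l)) p.2, ?_, fun p hp => ?_, fun p => ?_⟩
  · exact HdgT_pw.1 (hβ'.2 a) ι
  · have h1 := hβ'.1.1 a _ _ hp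
    change a + X'.V.dg p.2 = 2 * i at h1
    rw [Q.deg] at h1
    omega
  · have h1 : Q.u ^ i * ((β a (fun l => (ι l, p.1 l)) p.2 : ℚ) : K) = _ :=
      hcor a (fun l => (ι l, p.1 l)) p.2
    have h2 : β a (fun l => (ι l, p.1 l)) p.2 = s p := by
      rw [hβa, asy_apply, Finset.sum_eq_single 1]
      · rw [Equiv.Perm.sign_one]
        change ((1 : ℤ) : ℚ) * t (fun l => (ι l, p.1 l), p.2) = s p
        have h3 : t (fun l => (ι l, p.1 l), p.2) = s p := if_pos rfl
        rw [h3, Int.cast_one, one_mul]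
      · intro π _ hπ
        have h3 : t (fun l => (ι (π l), p.1 (π l)), p.2) = 0 := by
          refine if_neg fun h => hπ ?_
          ext l
          have h4 := congrFun h l
          exact congrArg Fin.val (hι h4)
        rw [h3, mul_zero]
      · intro h
        exact absurd (Finset.mem_univ _) h
    rw [h2] at h1
    refine h1.trans (Finset.sum_congr rfl fun c' _ => ?_)
    congr 1
    exact wl_pw Q.P (fun J => ((β' a J c' : ℚ) : K)) (fun l => (ι l, p.1 l))

/-- The tensors give the classes. -/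
theorem deligne_of_tensors (Q : Comparison X X' K) (m : ℕ)
    (hT : ∀ (a b i : ℕ) (s : (Fin a → B) × Fin v → ℚ), a + b = 2 * i → HdgT X.D X.V.z s →
      (∀ p, s p ≠ 0 → X.V.dg p.2 = b) → s ∈ TR (toCmp Q) (Fin a) b i) : Deligne Q m := by
  classical
  intro i γ hγ
  obtain ⟨β, hβ, hβγ⟩ := hγ
  have hone : ∀ (k : ℕ) (J J' : Fin k → Fin m × B), (∏ l, (1 : Matrix (Fin m × B) (Fin m × B) K)
      (J' l) (J l)) = if J' = J then 1 else 0 := by
    intro k J J'
    split_ifs with h
    · rw [h]
      exact Finset.prod_eq_one fun l _ => Matrix.one_apply_eq _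
    · obtain ⟨l, hl⟩ : ∃ l, J' l ≠ J l := by
        by_contra hcon
        push Not at hcon
        exact h (funext hcon)
      exact Finset.prod_eq_zero (Finset.mem_univ l) (Matrix.one_apply_ne hl)
  have hγ : ∀ k J c, γ k J c = ((β k J c : ℚ) : K) := by
    intro k J c
    have h1 := hβγ k J c
    rw [one_pow, one_mul, Finset.sum_eq_single c] at h1
    · rw [Matrix.one_apply_eq, one_mul, Finset.sum_eq_single J] at h1
      · rw [h1, hone, if_pos rfl, mul_one]
      · intro J' _ hJ'
        rw [hone, if_neg hJ', mul_zero]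
      · intro h
        exact absurd (Finset.mem_univ _) h
    · intro c' _ hc'
      rw [Matrix.one_apply_ne (Ne.symm hc'), zero_mul]
    · intro h
      exact absurd (Finset.mem_univ _) h
  rw [isHodge_iff] at hβ
  -- the tensors
  have hex : ∀ (k : ℕ) (σ : Fin k → Fin m), ∃ t' : (Fin k → B) × Fin v → ℚ,
      HdgT X'.D X'.V.z t' ∧ (∀ p, t' p ≠ 0 → k + X.V.dg p.2 = 2 * i) ∧
      ∀ p : (Fin k → B) × Fin v, Q.u ^ i * ((β k (fun l => (σ l, p.1 l)) p.2 : ℚ) : K) =
        ∑ c', Q.F p.2 c' * wl Q.P (fun I => ((t' (I, c') : ℚ) : K)) p.1 := by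
    intro k σ
    have h1 : HdgT X.D X.V.z (fun p : (Fin k → B) × Fin v => β k (fun l => (σ l, p.1 l)) p.2) :=
      HdgT_pw.1 (hβ.2 k) σ
    by_cases hk : k ≤ 2 * i
    · obtain ⟨t', h2, h3, h4⟩ := hT k (2 * i - k) i _ (by omega) h1 (fun p hp => by
        have h5 := hβ.1.1 k _ _ hp
        change k + X.V.dg p.2 = 2 * i at h5
        omega)
      refine ⟨t', h2, fun p hp => ?_, h4⟩
      have := h3 p hp
      omega
    · refine ⟨0, HdgT_zero, fun p hp => absurd rfl hp, fun p => ?_⟩
      have h5 : β k (fun l => (σ l, p.1 l)) p.2 = 0 := by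
        by_contra h6
        have h7 := hβ.1.1 k _ _ h6
        change k + X.V.dg p.2 = 2 * i at h7
        omega
      rw [h5, Rat.cast_zero, mul_zero]
      refine (Finset.sum_eq_zero fun c' _ => ?_).symm
      simp [wl]
  choose t' ht1 ht2 ht3 using hex
  let T : ∀ k : ℕ, (Fin k → Fin m × B) × Fin v → ℚ := fun k p =>
    t' k (fun l => (p.1 l).1) (fun l => (p.1 l).2, p.2)
  have hT1 : ∀ k, HdgT (pw m X'.D) X'.V.z (T k) := by
    intro k
    rw [HdgT_pw]
    intro σ
    exact ht1 k σ
  have hT3 : ∀ k (J : Fin k → Fin m × B) (c : Fin v), Q.u ^ i * ((β k J c : ℚ) : K) =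
      ∑ c', Q.F c c' * wl (pw m Q.P) (fun J => ((T k (J, c') : ℚ) : K)) J := by
    intro k J c
    have h1 := ht3 k (fun l => (J l).1) (fun l => (J l).2, c)
    refine h1.trans (Finset.sum_congr rfl fun c' _ => ?_)
    congr 1
    exact (wl_pw Q.P (fun J => ((T k (J, c') : ℚ) : K)) J).symm
  let β' : Cls (Fin m × B) v ℚ := fun k J c => ((k.factorial : ℚ))⁻¹ * asy (T k) (J, c)
  refine ⟨β', ?_, fun k J c => ?_⟩
  · rw [isHodge_iff]
    refine ⟨⟨fun k J c h0 => ?_, fun k π J c => ?_⟩, fun k => ?_⟩
    · have h1 := right_ne_zero_of_mul h0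
      rw [asy_apply] at h1
      obtain ⟨π, -, hπ⟩ := Finset.exists_ne_zero_of_sum_ne_zero h1
      have h2 := ht2 k _ _ (right_ne_zero_of_mul hπ)
      change k + X'.V.dg c = 2 * i
      rw [Q.deg]
      exact h2
    · change ((k.factorial : ℚ))⁻¹ * asy (T k) (fun l => J (π l), c) = _
      rw [asy_perm]
      change _ = ((Equiv.Perm.sign π : ℤ) : ℚ) * (((k.factorial : ℚ))⁻¹ * asy (T k) (J, c))
      ring
    · exact HdgT_smul ((k.factorial : ℚ))⁻¹ (HdgT_asy (hT1 k))
  · change Q.u ^ i * γ k J c = ∑ c', Q.F c c' * wl (pw m Q.P)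
      (fun J' => (((k.factorial : ℚ)⁻¹ * asy (T k) (J', c') : ℚ) : K)) J
    have hk : ((k.factorial : ℕ) : K) ≠ 0 := Nat.cast_ne_zero.2 (Nat.factorial_ne_zero k)
    have h1 : ∀ c', wl (pw m Q.P)
        (fun J' => (((k.factorial : ℚ)⁻¹ * asy (T k) (J', c') : ℚ) : K)) J =
        ((k.factorial : K))⁻¹ * ∑ π : Equiv.Perm (Fin k), ((Equiv.Perm.sign π : ℤ) : K) *
          wl (pw m Q.P) (fun J => ((T k (J, c') : ℚ) : K)) (fun l => J (π l)) := by
      intro c'
      have h2 : ∀ π : Equiv.Perm (Fin k), wl (pw m Q.P) (fun J => ((T k (J, c') : ℚ) : K))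
          (fun l => J (π l)) = wl (pw m Q.P)
            (fun J : Fin k → Fin m × B => ((T k (fun l => J (π l), c') : ℚ) : K)) J := by
        intro π
        exact (wl_reindex π (pw m Q.P) (fun J => ((T k (J, c') : ℚ) : K)) J).symm
      simp only [h2]
      unfold wl
      simp only [Finset.mul_sum]
      rw [Finset.sum_comm]
      refine Finset.sum_congr rfl fun J' _ => ?_
      rw [asy_apply, Finset.mul_sum]
      push_cast
      rw [Finset.sum_mul]
      refine Finset.sum_congr rfl fun π _ => ?_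
      ring
    simp only [h1]
    have h3 : ∑ c', Q.F c c' * (((k.factorial : K))⁻¹ * ∑ π : Equiv.Perm (Fin k),
        ((Equiv.Perm.sign π : ℤ) : K) *
          wl (pw m Q.P) (fun J => ((T k (J, c') : ℚ) : K)) (fun l => J (π l))) =
        ((k.factorial : K))⁻¹ * ∑ π : Equiv.Perm (Fin k), ((Equiv.Perm.sign π : ℤ) : K) *
          (Q.u ^ i * ((β k (fun l => J (π l)) c : ℚ) : K)) := by
      simp only [hT3, Finset.mul_sum]
      rw [Finset.sum_comm]
      refine Finset.sum_congr rfl fun π _ => Finset.sum_congr rfl fun c' _ => ?_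
      ring
    rw [h3, hγ]
    have h4 : ∀ π : Equiv.Perm (Fin k), ((Equiv.Perm.sign π : ℤ) : K) *
        (Q.u ^ i * ((β k (fun l => J (π l)) c : ℚ) : K)) = Q.u ^ i * ((β k J c : ℚ) : K) := by
      intro π
      have h5 := hβ.1.2 k π J c
      rw [h5]
      have h6 : ((Equiv.Perm.sign π : ℤ) : K) * ((Equiv.Perm.sign π : ℤ) : K) = 1 := by
        rcases Int.units_eq_one_or (Equiv.Perm.sign π) with h | h <;> rw [h] <;> norm_num
      push_cast
      linear_combination (Q.u ^ i * ((β k J c : ℚ) : K)) * h6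
    rw [Finset.sum_congr rfl fun π _ => h4 π, Finset.sum_const, Finset.card_univ,
      Fintype.card_perm, Fintype.card_fin, nsmul_eq_mul, ← mul_assoc, inv_mul_cancel₀ hk, one_mul]

end main

end

end Pool.Agent.K6.H94.DL
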